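import Pool.Agent.InnerComp.Blaschke

open Filter Topology Complex MeasureTheory Set
open scoped Real

namespace Pool.Agent.InnerComp

/-- Arc length measure on the unit circle, as a measure on `ℂ`. -/
noncomputable def arc : Measure ℂ :=
  (volume.restrict (Ioc 0 (2 * π))).map (circleMap 0 1)

lemma measurable_circleMap01 : Measurable (circleMap 0 1) := (continuous_circleMap 0 1).measurable

instance : IsFiniteMeasure arc := by
  unfold arc
  have : IsFiniteMeasure (volume.restrict (Ioc (0:ℝ) (2 * π))) := by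
    refine ⟨?_⟩
    rw [Measure.restrict_apply_univ, Real.volume_Ioc]
    exact ENNReal.ofReal_lt_top
  exact Measure.isFiniteMeasure_map _ _

lemma ae_arc_iff {p : ℂ → Prop} (hp : MeasurableSet {w | p w}) :
    (∀ᵐ w ∂arc, p w) ↔ ∀ᵐ θ ∂(volume.restrict (Ioc 0 (2 * π))), p (circleMap 0 1 θ) := by
  unfold arc
  exact ae_map_iff measurable_circleMap01.aemeasurable hp

lemma norm_circleMap01 (θ : ℝ) : ‖circleMap 0 1 θ‖ = 1 := by simp

lemma ae_norm_eq_one : ∀ᵐ w ∂arc, ‖w‖ = 1 := by
  rw [ae_arc_iff]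
  · exact Eventually.of_forall norm_circleMap01
  · exact measurableSet_eq_fun measurable_norm measurable_const

lemma integral_arc {E : Type*} [NormedAddCommGroup E] [NormedSpace ℝ E] {f : ℂ → E}
    (hf : AEStronglyMeasurable f arc) :
    ∫ w, f w ∂arc = ∫ θ in Ioc 0 (2 * π), f (circleMap 0 1 θ) := by
  unfold arc
  rw [integral_map measurable_circleMap01.aemeasurable hf]

lemma arc_singleton (w : ℂ) : arc {w} = 0 := by
  unfold arc
  rw [Measure.map_apply measurable_circleMap01 (measurableSet_singleton w),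
    Measure.restrict_apply (measurable_circleMap01 (measurableSet_singleton w))]
  apply Set.Countable.measure_zero
  apply Set.Subsingleton.countable
  rintro x ⟨hx, hx'⟩ y ⟨hy, hy'⟩
  have h1 : circleMap 0 1 x = circleMap 0 1 y := by
    rw [mem_preimage, mem_singleton_iff] at hx hy
    rw [hx, hy]
  exact injOn_circleMap_of_abs_sub_le (c := 0) (R := 1) one_ne_zero (a := 0) (b := 2 * π)
    (by simp [abs_of_pos Real.two_pi_pos]) (by rwa [uIoc_of_le Real.two_pi_pos.le])
    (by rwa [uIoc_of_le Real.two_pi_pos.le]) h1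

/-- functions holomorphic near the closed disc -/
structure GoodMap (g : ℂ → ℂ) : Prop where
  meas : Measurable g
  diff : ∀ w, ‖w‖ ≤ 1 → DifferentiableAt ℂ g w
  circ : ∀ w, ‖w‖ = 1 → ‖g w‖ = 1
  zero : g 0 = 0

lemma GoodMap.integral_pow {g : ℂ → ℂ} (hg : GoodMap g) {n : ℕ} (hn : n ≠ 0) :
    ∫ w, g w ^ n ∂arc = 0 := by
  rw [integral_arc (hg.meas.pow_const n).aestronglyMeasurable]
  have h1 : DiffContOnCl ℂ (fun w => g w ^ n) (Metric.ball 0 |1|) := by
    apply DifferentiableOn.diffContOnCl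
    intro w hw
    have hw' : ‖w‖ ≤ 1 := by
      have := Metric.closure_ball_subset_closedBall hw
      simpa using this
    exact ((hg.diff w hw').pow n).differentiableWithinAt
  have h2 := h1.circleAverage
  rw [Real.circleAverage_def] at h2
  rw [← intervalIntegral.integral_of_le Real.two_pi_pos.le]
  rw [hg.zero, zero_pow hn] at h2
  have h3 : (2 * π)⁻¹ ≠ 0 := by positivity
  exact (smul_eq_zero.mp h2).resolve_left h3

lemma GoodMap.integral_zpow {g : ℂ → ℂ} (hg : GoodMap g) {n : ℤ} (hn : n ≠ 0) :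
    ∫ w, g w ^ n ∂arc = 0 := by
  rcases lt_or_gt_of_ne hn with h | h
  · obtain ⟨m, hm⟩ : ∃ m : ℕ, n = -m := ⟨n.natAbs, by omega⟩
    have hm0 : m ≠ 0 := by omega
    have h1 : ∫ w, g w ^ n ∂arc = ∫ w, (starRingEnd ℂ) (g w ^ m) ∂arc := by
      refine integral_congr_ae ?_
      filter_upwards [ae_norm_eq_one] with w hw
      have h2 := hg.circ w hw
      rw [hm, zpow_neg, zpow_natCast, map_pow, ← inv_pow]
      congr 1
      rw [Complex.inv_def, Complex.normSq_eq_norm_sq, h2]
      simp
    rw [h1, integral_conj, hg.integral_pow hm0, map_zero]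
  · obtain ⟨m, hm⟩ : ∃ m : ℕ, n = m := ⟨n.natAbs, by omega⟩
    have hm0 : m ≠ 0 := by omega
    rw [hm]
    simp only [zpow_natCast]
    exact hg.integral_pow hm0

lemma goodMap_id : GoodMap (fun w => w) :=
  ⟨measurable_id, fun _ _ => differentiableAt_id, fun _ h => h, rfl⟩

end Pool.Agent.InnerComp
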