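import Pool.Agent.InnerComp.Defs

open Filter Topology Complex MeasureTheory

namespace Pool.Agent.InnerComp

/-- Möbius map `w ↦ (w - a)/(1 - a w)`, `a` real. -/
noncomputable def mob (a : ℝ) (w : ℂ) : ℂ := (w - a) / (1 - a * w)

/-- The degree two Blaschke product `w ↦ w (w + r)/(1 + r w)`, `r` real. -/
noncomputable def gB (r : ℝ) (w : ℂ) : ℂ := w * ((w + r) / (1 + r * w))

lemma one_sub_ne {a : ℝ} (ha : |a| < 1) {w : ℂ} (hw : ‖w‖ ≤ 1) : (1 : ℂ) - a * w ≠ 0 := by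
  intro h
  have h1 : (1 : ℂ) = a * w := sub_eq_zero.mp h
  have h2 := congrArg norm h1
  rw [norm_one, norm_mul, Complex.norm_real, Real.norm_eq_abs] at h2
  nlinarith [abs_nonneg a, norm_nonneg w]

/-- `1 - |mob a w|^2 = (1 - a²)(1 - |w|²)/|1 - a w|²`. -/
lemma normSq_mob {a : ℝ} (ha : |a| < 1) {w : ℂ} (hw : ‖w‖ ≤ 1) :
    (1 - ‖mob a w‖ ^ 2) * ‖1 - a * w‖ ^ 2 = (1 - a ^ 2) * (1 - ‖w‖ ^ 2) := by
  have hne := one_sub_ne ha hw
  have hne' : ‖(1 : ℂ) - a * w‖ ≠ 0 := norm_ne_zero_iff.mpr hne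
  unfold mob
  rw [norm_div, div_pow]
  have h1 : (1 - ‖w - a‖ ^ 2 / ‖1 - a * w‖ ^ 2) * ‖1 - a * w‖ ^ 2 =
      ‖1 - a * w‖ ^ 2 - ‖w - a‖ ^ 2 := by
    rw [sub_mul, one_mul, div_mul_cancel₀ _ (pow_ne_zero 2 hne')]
  rw [h1, Complex.sq_norm, Complex.sq_norm, Complex.sq_norm, Complex.normSq_apply,
    Complex.normSq_apply, Complex.normSq_apply]
  simp
  ring

lemma norm_mob_lt {a : ℝ} (ha : |a| < 1) {w : ℂ} (hw : ‖w‖ < 1) : ‖mob a w‖ < 1 := by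
  have h := normSq_mob ha hw.le
  have hne := one_sub_ne ha hw.le
  have hpos : 0 < ‖(1 : ℂ) - a * w‖ ^ 2 := by positivity
  have ha2 : a ^ 2 < 1 := by rw [sq_lt_one_iff_abs_lt_one]; exact ha
  have hw2 : ‖w‖ ^ 2 < 1 := by nlinarith [norm_nonneg w]
  have h3 : 0 < (1 - ‖mob a w‖ ^ 2) * ‖1 - a * w‖ ^ 2 := by
    rw [h]; exact mul_pos (by linarith) (by linarith)
  have h4 : 0 < 1 - ‖mob a w‖ ^ 2 := (pos_iff_pos_of_mul_pos h3).mpr hpos
  nlinarith [norm_nonneg (mob a w)]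

lemma norm_mob_eq {a : ℝ} (ha : |a| < 1) {w : ℂ} (hw : ‖w‖ = 1) : ‖mob a w‖ = 1 := by
  have h := normSq_mob ha hw.le
  have hne := one_sub_ne ha hw.le
  have hpos : 0 < ‖(1 : ℂ) - a * w‖ ^ 2 := by positivity
  rw [hw] at h
  have h3 : 1 - ‖mob a w‖ ^ 2 = 0 := by
    have : (1 - ‖mob a w‖ ^ 2) * ‖1 - a * w‖ ^ 2 = 0 := by rw [h]; ring
    exact (mul_eq_zero.mp this).resolve_right hpos.ne'
  have h4 : ‖mob a w‖ ^ 2 = 1 := by linarith
  exact (pow_eq_one_iff_of_nonneg (norm_nonneg _) two_ne_zero).mp h4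

lemma norm_mob_le {a : ℝ} (ha : |a| < 1) {w : ℂ} (hw : ‖w‖ ≤ 1) : ‖mob a w‖ ≤ 1 := by
  rcases hw.lt_or_eq with h | h
  · exact (norm_mob_lt ha h).le
  · exact (norm_mob_eq ha h).le

lemma differentiableAt_mob {a : ℝ} (ha : |a| < 1) {w : ℂ} (hw : ‖w‖ ≤ 1) :
    DifferentiableAt ℂ (mob a) w := by
  unfold mob
  have := one_sub_ne ha hw
  fun_prop (disch := exact this)

lemma mob_neg_mob {a : ℝ} (ha : |a| < 1) {w : ℂ} (hw : ‖w‖ ≤ 1) : mob (-a) (mob a w) = w := by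
  have hne := one_sub_ne ha hw
  have h2 : (1 : ℂ) - ((-a : ℝ) : ℂ) * mob a w ≠ 0 :=
    one_sub_ne (by rwa [abs_neg]) (norm_mob_le ha hw)
  unfold mob at h2 ⊢
  rw [div_eq_iff h2]
  have hne2 : (1 : ℂ) - w * a ≠ 0 := by rwa [mul_comm]
  push_cast
  field_simp
  ring

lemma mob_zero (w : ℂ) : mob 0 w = w := by simp [mob]

lemma mob_apply_zero (a : ℝ) : mob a 0 = -a := by simp [mob]

/-- Möbius invariance of the pseudo-hyperbolic distance. -/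
lemma mob_invariance {a : ℝ} (ha : |a| < 1) {u v : ℂ} (hu : ‖u‖ ≤ 1) (hv : ‖v‖ ≤ 1) :
    ‖(mob a u - mob a v) / (1 - (starRingEnd ℂ) (mob a v) * mob a u)‖ =
      ‖(u - v) / (1 - (starRingEnd ℂ) v * u)‖ := by
  have hnu := one_sub_ne ha hu
  have hnv := one_sub_ne ha hv
  have hnv' : (1 : ℂ) - a * (starRingEnd ℂ) v ≠ 0 :=
    one_sub_ne ha (by rwa [Complex.norm_conj])
  have ha2 : (1 : ℂ) - (a : ℂ) ^ 2 ≠ 0 := by
    have h1 : a ^ 2 < 1 := by rw [sq_lt_one_iff_abs_lt_one]; exact ha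
    have h2 : (1 : ℝ) - a ^ 2 ≠ 0 := by linarith
    exact_mod_cast h2
  have e1 : mob a u - mob a v = (u - v) * (1 - (a : ℂ) ^ 2) / ((1 - a * u) * (1 - a * v)) := by
    unfold mob
    rw [div_sub_div _ _ hnu hnv]
    congr 1
    ring
  have e2 : 1 - (starRingEnd ℂ) (mob a v) * mob a u =
      (1 - (a : ℂ) ^ 2) * (1 - (starRingEnd ℂ) v * u) /
        ((1 - a * (starRingEnd ℂ) v) * (1 - a * u)) := by
    unfold mob
    simp only [map_div₀, map_sub, map_mul, map_one, Complex.conj_ofReal]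
    rw [div_mul_div_comm, one_sub_div (mul_ne_zero hnv' hnu)]
    congr 1
    ring
  have e3 : ‖(1 : ℂ) - a * (starRingEnd ℂ) v‖ = ‖(1 : ℂ) - a * v‖ := by
    rw [← Complex.norm_conj (1 - a * v)]
    simp
  rw [e1, e2]
  simp only [norm_div, norm_mul]
  rw [e3]
  have p1 : ‖(1 : ℂ) - a * u‖ ≠ 0 := norm_ne_zero_iff.mpr hnu
  have p2 : ‖(1 : ℂ) - a * v‖ ≠ 0 := norm_ne_zero_iff.mpr hnv
  have p3 : ‖(1 : ℂ) - (a : ℂ) ^ 2‖ ≠ 0 := norm_ne_zero_iff.mpr ha2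
  generalize ‖(1 : ℂ) - a * u‖ = x at *
  generalize ‖(1 : ℂ) - a * v‖ = y at *
  generalize ‖(1 : ℂ) - (a : ℂ) ^ 2‖ = t at *
  field_simp

/-- `gB r w = w * mob (-r) w` -/
lemma gB_eq (r : ℝ) (w : ℂ) : gB r w = w * mob (-r) w := by
  unfold gB mob
  push_cast
  congr 2 <;> ring

lemma norm_gB_le {r : ℝ} (hr : |r| < 1) {w : ℂ} (hw : ‖w‖ ≤ 1) : ‖gB r w‖ ≤ ‖w‖ := by
  rw [gB_eq, norm_mul]
  exact mul_le_of_le_one_right (norm_nonneg _) (norm_mob_le (by rwa [abs_neg]) hw)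

lemma norm_gB_eq {r : ℝ} (hr : |r| < 1) {w : ℂ} (hw : ‖w‖ = 1) : ‖gB r w‖ = 1 := by
  rw [gB_eq, norm_mul, norm_mob_eq (by rwa [abs_neg]) hw, hw, one_mul]

lemma gB_zero_left (w : ℂ) : gB 0 w = w ^ 2 := by
  simp [gB, sq]

lemma gB_zero_right (r : ℝ) : gB r 0 = 0 := by
  simp [gB]

lemma differentiableAt_gB {r : ℝ} (hr : |r| < 1) {w : ℂ} (hw : ‖w‖ ≤ 1) :
    DifferentiableAt ℂ (gB r) w := by
  have h : gB r = fun w => w * mob (-r) w := funext (gB_eq r)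
  rw [h]
  exact differentiableAt_id.mul (differentiableAt_mob (by rwa [abs_neg]) hw)

lemma not_injOn_gB {r : ℝ} (hr : |r| < 1) : ¬ Set.InjOn (gB r) (Metric.ball 0 1) := by
  intro h
  by_cases h0 : r = 0
  · have h1 : gB r (1/2) = gB r (-1/2) := by rw [h0, gB_zero_left, gB_zero_left]; norm_num
    have := h (by simp; norm_num) (by simp; norm_num) h1
    norm_num at this
  · have h1 : gB r 0 = gB r (-r) := by simp [gB]
    have := h (by simp) (by simpa using hr) h1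
    have h2 : (r : ℂ) = 0 := by
      have := this.symm
      simpa using this
    exact h0 (by exact_mod_cast h2)

/-- the key one-step estimate on the circle near the repelling fixed point 1 -/
lemma norm_one_sub_gB {r : ℝ} (hr0 : 0 ≤ r) (hr : r < 1) {w : ℂ} (hw : ‖w‖ = 1) :
    (1 + r) / 2 * ‖1 - gB r w‖ ≤ ‖1 - w‖ := by
  have habs : |(-r)| < 1 := by rw [abs_neg, abs_of_nonneg hr0]; exact hr
  have hne : (1 : ℂ) + r * w ≠ 0 := by
    have := one_sub_ne habs hw.le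
    push_cast at this
    simpa using this
  have e1 : 1 - gB r w = (1 - w) * (1 + w) / (1 + r * w) := by
    unfold gB
    rw [← mul_div_assoc, one_sub_div hne]
    congr 1
    ring
  rw [e1, norm_div, norm_mul]
  have hpos : 0 < ‖(1 : ℂ) + r * w‖ := norm_pos_iff.mpr hne
  have key : (1 + r) * ‖1 + w‖ ≤ 2 * ‖(1 : ℂ) + r * w‖ := by
    have hsq : w.re * w.re + w.im * w.im = 1 := by
      have := Complex.sq_norm w
      rw [hw, Complex.normSq_apply] at this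
      linarith
    have hre : w.re ≤ 1 := by nlinarith [sq_nonneg w.im, sq_nonneg (w.re)]
    refine abs_le_of_sq_le_sq' ?_ (by positivity) |>.2
    have h1 : ‖1 + w‖ ^ 2 = 2 + 2 * w.re := by
      rw [Complex.sq_norm, Complex.normSq_apply]; simp; nlinarith
    have h2 : ‖(1 : ℂ) + r * w‖ ^ 2 = 1 + 2 * r * w.re + r ^ 2 := by
      rw [Complex.sq_norm, Complex.normSq_apply]; simp; nlinarith
    rw [mul_pow, mul_pow, h1, h2]
    nlinarith [mul_nonneg (sq_nonneg (1 - r)) (sub_nonneg.mpr hre)]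
  calc (1 + r) / 2 * (‖1 - w‖ * ‖1 + w‖ / ‖(1 : ℂ) + r * w‖)
      = ‖1 - w‖ * ((1 + r) * ‖1 + w‖ / (2 * ‖(1 : ℂ) + r * w‖)) := by field_simp
    _ ≤ ‖1 - w‖ * 1 := by
        refine mul_le_mul_of_nonneg_left ?_ (norm_nonneg _)
        rw [div_le_one (by positivity)]
        exact key
    _ = ‖1 - w‖ := mul_one _

end Pool.Agent.InnerComp
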