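import Pool.Agent.InnerComp.Preserve

open Filter Topology Complex MeasureTheory Set
open scoped Real ENNReal

namespace Pool.Agent.InnerComp

/-- the arc-like set `{w : |1 - w| < ρ}` -/
def E (ρ : ℝ) : Set ℂ := {w | ‖1 - w‖ < ρ}

lemma measurableSet_E (ρ : ℝ) : MeasurableSet (E ρ) :=
  measurableSet_lt (by fun_prop) measurable_const

lemma exists_small_E {ε : ℝ≥0∞} (hε : ε ≠ 0) : ∃ ρ > 0, arc (E ρ) ≤ ε := by
  have h1 : Tendsto (fun j : ℕ => arc (E (1 / ((j : ℝ) + 1)))) atTop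
      (𝓝 (arc (⋂ j : ℕ, E (1 / ((j : ℝ) + 1))))) := by
    refine tendsto_measure_iInter_atTop (fun j => (measurableSet_E _).nullMeasurableSet) ?_
      ⟨0, measure_ne_top _ _⟩
    intro i j hij w hw
    have : (1 : ℝ) / ((j : ℝ) + 1) ≤ 1 / ((i : ℝ) + 1) := by
      apply one_div_le_one_div_of_le (by positivity)
      have : (i : ℝ) ≤ j := by exact_mod_cast hij
      linarith
    exact lt_of_lt_of_le hw this
  have h2 : (⋂ j : ℕ, E (1 / ((j : ℝ) + 1))) ⊆ {1} := by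
    intro w hw
    rw [mem_iInter] at hw
    by_contra hne
    have hpos : 0 < ‖1 - w‖ := by
      rw [norm_pos_iff, sub_ne_zero]
      exact fun h => hne (by simpa using h.symm)
    obtain ⟨j, hj⟩ := exists_nat_one_div_lt hpos
    exact absurd (hw j) (not_lt.mpr hj.le)
  have h3 : arc (⋂ j : ℕ, E (1 / ((j : ℝ) + 1))) = 0 :=
    measure_mono_null h2 (arc_singleton 1)
  rw [h3] at h1
  have h4 := h1.eventually (gt_mem_nhds (pos_iff_ne_zero.mpr hε))
  obtain ⟨j, hj⟩ := h4.exists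
  exact ⟨1 / ((j : ℝ) + 1), by positivity, hj.le⟩

lemma exists_r (ρ : ℝ) {ε : ℝ≥0∞} (hε : ε ≠ 0) : ∃ r : ℝ, 0 ≤ r ∧ r < 1 ∧
    arc {w | (1 + r) / 2 * ρ ≤ ‖1 - w‖ ∧ ‖1 - w‖ < ρ} ≤ ε := by
  rcases le_or_gt ρ 0 with hρ | hρ
  · refine ⟨0, le_rfl, one_pos, ?_⟩
    have : {w : ℂ | (1 + 0) / 2 * ρ ≤ ‖1 - w‖ ∧ ‖1 - w‖ < ρ} = ∅ := by
      ext w
      simp only [mem_ofPred_eq, mem_empty_iff_false, iff_false, not_and, not_lt]
      intro _
      exact hρ.trans (norm_nonneg _)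
    rw [this, measure_empty]
    exact zero_le
  · set S : ℕ → Set ℂ := fun j => {w | (1 + (1 - 1 / ((j : ℝ) + 1))) / 2 * ρ ≤ ‖1 - w‖ ∧
      ‖1 - w‖ < ρ} with hS
    have hmono : ∀ i j : ℕ, i ≤ j → (1 : ℝ) / ((j : ℝ) + 1) ≤ 1 / ((i : ℝ) + 1) := by
      intro i j hij
      apply one_div_le_one_div_of_le (by positivity)
      have : (i : ℝ) ≤ j := by exact_mod_cast hij
      linarith
    have h1 : Tendsto (fun j : ℕ => arc (S j)) atTop (𝓝 (arc (⋂ j : ℕ, S j))) := by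
      refine tendsto_measure_iInter_atTop (fun j => ?_) ?_ ⟨0, measure_ne_top _ _⟩
      · apply MeasurableSet.nullMeasurableSet
        have hc : Continuous (fun w : ℂ => ‖1 - w‖) := by fun_prop
        exact (isClosed_le continuous_const hc).measurableSet.inter
          (isOpen_lt hc continuous_const).measurableSet
      · intro i j hij w hw
        refine ⟨le_trans ?_ hw.1, hw.2⟩
        have := hmono i j hij
        have h2 : (1 + (1 - 1 / ((i : ℝ) + 1))) / 2 ≤ (1 + (1 - 1 / ((j : ℝ) + 1))) / 2 := by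
          linarith
        exact mul_le_mul_of_nonneg_right h2 hρ.le
    have h2 : (⋂ j : ℕ, S j) = ∅ := by
      ext w
      simp only [mem_iInter, mem_empty_iff_false, iff_false]
      intro hw
      have hlt := (hw 0).2
      have hlim : Tendsto (fun j : ℕ => (1 + (1 - 1 / ((j : ℝ) + 1))) / 2 * ρ) atTop (𝓝 ρ) := by
        have h3 : Tendsto (fun j : ℕ => (1 : ℝ) / ((j : ℝ) + 1)) atTop (𝓝 0) :=
          tendsto_one_div_add_atTop_nhds_zero_nat
        have h4 := (((h3.const_sub 1).const_add 1).div_const 2).mul_const ρ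
        simpa using h4
      have := le_of_tendsto hlim (Eventually.of_forall fun j => (hw j).1)
      linarith
    rw [h2, measure_empty] at h1
    have h4 := h1.eventually (gt_mem_nhds (pos_iff_ne_zero.mpr hε))
    obtain ⟨j, hj⟩ := h4.exists
    refine ⟨1 - 1 / ((j : ℝ) + 1), ?_, ?_, hj.le⟩
    · have : (1 : ℝ) / ((j : ℝ) + 1) ≤ 1 := by
        rw [div_le_one (by positivity)]
        have : (0:ℝ) ≤ j := Nat.cast_nonneg j
        linarith
      linarith
    · have : 0 < (1 : ℝ) / ((j : ℝ) + 1) := by positivity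
      linarith

variable (δ : ℕ → ℝ)

/-- is step `n` special, given the current counter `k`? -/
def Special (n k : ℕ) : Prop := arc (E (4 * ((k : ℝ) + 1) * δ n)) ≤ 2⁻¹ ^ (k + 1)

open Classical in
/-- state `(κ, ρ)` -/
noncomputable def st : ℕ → ℕ × ℝ
  | 0 => (0, 0)
  | n + 1 => if Special δ (n + 1) (st n).1 then
      ((st n).1 + 1, 4 * (((st n).1 : ℝ) + 1) * δ (n + 1)) else st n

open Classical in
/-- the parameter of the `n`-th Blaschke product -/
noncomputable def rr (n : ℕ) : ℝ :=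
  if Special δ (n + 1) (st δ n).1 then 0
  else (exists_r (st δ n).2 (ε := 2⁻¹ ^ (n + 1)) (by simp)).choose

lemma rr_nonneg (n : ℕ) : 0 ≤ rr δ n := by
  classical
  unfold rr
  split_ifs
  · exact le_rfl
  · exact (exists_r (st δ n).2 (ε := 2⁻¹ ^ (n + 1)) (by simp)).choose_spec.1

lemma rr_lt (n : ℕ) : rr δ n < 1 := by
  classical
  unfold rr
  split_ifs
  · exact one_pos
  · exact (exists_r (st δ n).2 (ε := 2⁻¹ ^ (n + 1)) (by simp)).choose_spec.2.1

lemma abs_rr (n : ℕ) : |rr δ n| < 1 := by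
  rw [abs_of_nonneg (rr_nonneg δ n)]; exact rr_lt δ n

lemma rr_spec {n : ℕ} (h : ¬ Special δ (n + 1) (st δ n).1) :
    arc {w | (1 + rr δ n) / 2 * (st δ n).2 ≤ ‖1 - w‖ ∧ ‖1 - w‖ < (st δ n).2} ≤ 2⁻¹ ^ (n + 1) := by
  classical
  unfold rr
  rw [if_neg h]
  exact (exists_r (st δ n).2 (ε := 2⁻¹ ^ (n + 1)) (by simp)).choose_spec.2.2

lemma rr_special {n : ℕ} (h : Special δ (n + 1) (st δ n).1) : rr δ n = 0 := by
  classical
  unfold rr
  rw [if_pos h]

lemma st_special {n : ℕ} (h : Special δ (n + 1) (st δ n).1) :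
    st δ (n + 1) = ((st δ n).1 + 1, 4 * (((st δ n).1 : ℝ) + 1) * δ (n + 1)) := by
  classical
  rw [st, if_pos h]

lemma st_not_special {n : ℕ} (h : ¬ Special δ (n + 1) (st δ n).1) : st δ (n + 1) = st δ n := by
  classical
  rw [st, if_neg h]

/-- normalised compositions -/
noncomputable def G : ℕ → ℂ → ℂ
  | 0 => fun w => w
  | n + 1 => fun w => gB (rr δ n) (G n w)

lemma measurable_gB (r : ℝ) : Measurable (gB r) := by
  unfold gB
  fun_prop

lemma norm_G_le (n : ℕ) {w : ℂ} (hw : ‖w‖ ≤ 1) : ‖G δ n w‖ ≤ ‖w‖ ^ ((st δ n).1 + 1) := by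
  induction n with
  | zero => simp [G, st]
  | succ n ih =>
    have hG1 : ‖G δ n w‖ ≤ 1 := ih.trans (pow_le_one₀ (norm_nonneg _) hw)
    by_cases h : Special δ (n + 1) (st δ n).1
    · rw [st_special δ h]
      show ‖gB (rr δ n) (G δ n w)‖ ≤ _
      rw [rr_special δ h, gB_zero_left, norm_pow]
      calc ‖G δ n w‖ ^ 2 ≤ (‖w‖ ^ ((st δ n).1 + 1)) ^ 2 :=
            pow_le_pow_left₀ (norm_nonneg _) ih 2
        _ = ‖w‖ ^ (((st δ n).1 + 1) * 2) := by rw [pow_mul]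
        _ ≤ ‖w‖ ^ ((st δ n).1 + 1 + 1) :=
            pow_le_pow_of_le_one (norm_nonneg _) hw (by omega)
    · rw [st_not_special δ h]
      show ‖gB (rr δ n) (G δ n w)‖ ≤ _
      exact (norm_gB_le (abs_rr δ n) hG1).trans ih

lemma norm_G_le_one (n : ℕ) {w : ℂ} (hw : ‖w‖ ≤ 1) : ‖G δ n w‖ ≤ 1 :=
  (norm_G_le δ n hw).trans (pow_le_one₀ (norm_nonneg _) hw)

lemma norm_G_lt_one (n : ℕ) {w : ℂ} (hw : ‖w‖ < 1) : ‖G δ n w‖ < 1 :=
  (norm_G_le δ n hw.le).trans_lt (pow_lt_one₀ (norm_nonneg _) hw (by omega))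

lemma goodMap_G (n : ℕ) : GoodMap (G δ n) := by
  induction n with
  | zero => exact goodMap_id
  | succ n ih =>
    refine ⟨(measurable_gB _).comp ih.meas, fun w hw => ?_, fun w hw => ?_, ?_⟩
    · exact (differentiableAt_gB (abs_rr δ n) (norm_G_le_one δ n hw)).comp w (ih.diff w hw)
    · exact norm_gB_eq (abs_rr δ n) (ih.circ w hw)
    · show gB (rr δ n) (G δ n 0) = 0
      rw [ih.zero, gB_zero_right]

lemma goodMap_gB {r : ℝ} (hr : |r| < 1) : GoodMap (gB r) :=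
  ⟨measurable_gB r, fun _ hw => differentiableAt_gB hr hw, fun _ hw => norm_gB_eq hr hw,
    gB_zero_right r⟩

open Classical in
/-- exceptional sets for Borel-Cantelli -/
noncomputable def N (n : ℕ) : Set ℂ :=
  if Special δ (n + 1) (st δ n).1 then G δ (n + 1) ⁻¹' (E (st δ (n + 1)).2)
  else G δ (n + 1) ⁻¹' (E (st δ (n + 1)).2) \ G δ n ⁻¹' (E (st δ n).2)

open Classical in
/-- bound for the measure of `N n` -/
noncomputable def bd (n : ℕ) : ℝ≥0∞ :=
  if Special δ (n + 1) (st δ n).1 then 2⁻¹ ^ ((st δ n).1 + 1) else 2⁻¹ ^ (n + 1)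

lemma measure_preimage {g : ℂ → ℂ} (hg : GoodMap g) {S : Set ℂ} (hS : MeasurableSet S) :
    arc (g ⁻¹' S) = arc S := by
  conv_rhs => rw [← hg.map_arc]
  rw [Measure.map_apply hg.meas hS]

lemma arc_N_le (n : ℕ) : arc (N δ n) ≤ bd δ n := by
  classical
  unfold N bd
  by_cases h : Special δ (n + 1) (st δ n).1
  · rw [if_pos h, if_pos h, st_special δ h, measure_preimage (goodMap_G δ (n + 1))
      (measurableSet_E _)]
    exact h
  · rw [if_neg h, if_neg h, st_not_special δ h]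
    set ρ := (st δ n).2 with hρ
    set g := gB (rr δ n) with hg
    have hgood : GoodMap g := goodMap_gB (abs_rr δ n)
    have e1 : G δ (n + 1) ⁻¹' (E ρ) \ G δ n ⁻¹' (E ρ) = G δ n ⁻¹' (g ⁻¹' (E ρ) \ E ρ) := by
      ext w; rfl
    have hm1 : MeasurableSet (g ⁻¹' (E ρ)) := hgood.meas (measurableSet_E ρ)
    rw [e1, measure_preimage (goodMap_G δ n) (hm1.diff (measurableSet_E ρ))]
    -- μ(g⁻¹E \ E) = μ(E \ g⁻¹E)
    have e2 : arc (g ⁻¹' (E ρ) \ E ρ) = arc (E ρ \ g ⁻¹' (E ρ)) := by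
      have h1 := measure_inter_add_sdiff (μ := arc) (g ⁻¹' (E ρ)) (measurableSet_E ρ)
      have h2 := measure_inter_add_sdiff (μ := arc) (E ρ) hm1
      rw [measure_preimage hgood (measurableSet_E ρ), ← h2, inter_comm] at h1
      exact (ENNReal.add_right_inj (measure_ne_top _ _)).mp h1
    rw [e2]
    refine le_trans ?_ (rr_spec δ h)
    have hsub : ∀ᵐ w ∂arc, w ∈ E ρ \ g ⁻¹' (E ρ) →
        w ∈ {w | (1 + rr δ n) / 2 * ρ ≤ ‖1 - w‖ ∧ ‖1 - w‖ < ρ} := by
      filter_upwards [ae_norm_eq_one] with w hw hmem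
      refine ⟨?_, hmem.1⟩
      have h1 := norm_one_sub_gB (rr_nonneg δ n) (rr_lt δ n) hw
      have h2 : ρ ≤ ‖1 - g w‖ := not_lt.mp hmem.2
      have h3 : 0 ≤ (1 + rr δ n) / 2 := by have := rr_nonneg δ n; linarith
      exact (mul_le_mul_of_nonneg_left h2 h3).trans h1
    exact measure_mono_ae hsub

lemma two_inv_pow_add (k : ℕ) : (2⁻¹ : ℝ≥0∞) ^ (k + 1) + 2⁻¹ ^ (k + 1) = 2⁻¹ ^ k := by
  rw [pow_succ, ← mul_add, ENNReal.inv_two_add_inv_two, mul_one]

lemma tsum_bd : ∑' n, bd δ n ≠ ∞ := by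
  classical
  have h1 : ∑' n, (if Special δ (n + 1) (st δ n).1 then (2⁻¹ : ℝ≥0∞) ^ ((st δ n).1 + 1) else 0)
      ≤ 1 := by
    refine ENNReal.tsum_le_of_sum_range_le fun m => ?_
    have : (∑ n ∈ Finset.range m, (if Special δ (n + 1) (st δ n).1 then
        (2⁻¹ : ℝ≥0∞) ^ ((st δ n).1 + 1) else 0)) + 2⁻¹ ^ (st δ m).1 = 1 := by
      induction m with
      | zero => simp [st]
      | succ m ih =>
        rw [Finset.sum_range_succ]
        by_cases h : Special δ (m + 1) (st δ m).1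
        · rw [if_pos h, st_special δ h]
          show _ + 2⁻¹ ^ ((st δ m).1 + 1) + 2⁻¹ ^ ((st δ m).1 + 1) = 1
          rw [add_assoc, two_inv_pow_add, ih]
        · rw [if_neg h, st_not_special δ h, add_zero, ih]
    rw [← this]
    exact le_self_add
  have h2 : ∑' n : ℕ, (2⁻¹ : ℝ≥0∞) ^ (n + 1) ≤ 1 := by
    have := ENNReal.tsum_geometric_add_one (2⁻¹ : ℝ≥0∞)
    rw [this]
    have h3 : (1 : ℝ≥0∞) - 2⁻¹ = 2⁻¹ := ENNReal.one_sub_inv_two
    rw [h3, inv_inv, ENNReal.inv_mul_cancel (by simp) (by simp)]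
  have h3 : ∀ n, bd δ n ≤ (if Special δ (n + 1) (st δ n).1 then
      (2⁻¹ : ℝ≥0∞) ^ ((st δ n).1 + 1) else 0) + 2⁻¹ ^ (n + 1) := by
    intro n
    unfold bd
    by_cases h : Special δ (n + 1) (st δ n).1
    · rw [if_pos h, if_pos h]; exact le_self_add
    · rw [if_neg h, if_neg h, zero_add]
  have h4 : ∑' n, bd δ n ≤ 1 + 1 := by
    refine (ENNReal.tsum_le_tsum h3).trans ?_
    rw [ENNReal.tsum_add]
    exact add_le_add h1 h2
  exact ne_top_of_le_ne_top (by simp) h4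

end Pool.Agent.InnerComp
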