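import Mathlib

open Filter Topology Complex MeasureTheory

namespace Pool.Agent.InnerComp

/-- `f` has the radial limit `L` at the boundary point `e^{iθ}`. -/
def HasRadialLimit (f : ℂ → ℂ) (θ : ℝ) (L : ℂ) : Prop :=
  Tendsto (fun r : ℝ => f (r * exp (θ * I))) (𝓝[<] 1) (𝓝 L)

/-- Inner functions of the unit disc `𝔻 = Metric.ball 0 1`: holomorphic self-maps of `𝔻` whose
radial limits exist and have modulus one at almost every boundary point `e^{iθ}`. -/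
structure IsInner (f : ℂ → ℂ) : Prop where
  differentiableOn : DifferentiableOn ℂ f (Metric.ball 0 1)
  mapsTo : Set.MapsTo f (Metric.ball 0 1) (Metric.ball 0 1)
  radial : ∀ᵐ θ : ℝ, ∃ L : ℂ, HasRadialLimit f θ L ∧ ‖L‖ = 1

/-- The forward composition `F_n = f_n ∘ ⋯ ∘ f_1` (`F_0 = id`). -/
def forwardComp (f : ℕ → ℂ → ℂ) : ℕ → ℂ → ℂ
  | 0 => id
  | n + 1 => f (n + 1) ∘ forwardComp f n

/-- The hyperbolic distance of the unit disc, `2 artanh |(z - w) / (1 - w̄ z)|`. -/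
noncomputable def hypDist (z w : ℂ) : ℝ :=
  2 * Real.artanh ‖(z - w) / (1 - (starRingEnd ℂ) w * z)‖

/-- The sequence `F` is contracting: `dist_𝔻 (F_n z, F_n w) → 0` for all `z, w ∈ 𝔻`. -/
def IsContracting (F : ℕ → ℂ → ℂ) : Prop :=
  ∀ z ∈ Metric.ball (0 : ℂ) 1, ∀ w ∈ Metric.ball (0 : ℂ) 1,
    Tendsto (fun n => hypDist (F n z) (F n w)) atTop (𝓝 0)

/-- The Denjoy–Wolff set, as a set of angles: those `θ` for which the radial limits
`F_n(e^{iθ})` exist for all `n` and `|F_n(e^{iθ}) - F_n(0)| → 0`. -/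
def denjoyWolffSet (F : ℕ → ℂ → ℂ) : Set ℝ :=
  {θ | ∃ L : ℕ → ℂ, (∀ n, HasRadialLimit (F n) θ (L n)) ∧
    Tendsto (fun n => ‖L n - F n 0‖) atTop (𝓝 0)}

end Pool.Agent.InnerComp
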