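import Pool.Agent.InnerComp.Build

open Filter Topology Complex MeasureTheory Set
open scoped Real ENNReal

namespace Pool.Agent.InnerComp

variable (δ : ℕ → ℝ)

lemma kappa_mono : Monotone (fun n => (st δ n).1) := by
  apply monotone_nat_of_le_succ
  intro n
  by_cases h : Special δ (n + 1) (st δ n).1
  · rw [st_special δ h]; exact Nat.le_succ _
  · rw [st_not_special δ h]

lemma kappa_unbounded (hlim : Tendsto δ atTop (𝓝 0)) :
    ∀ K : ℕ, ∃ n, K ≤ (st δ n).1 := by
  intro K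
  induction K with
  | zero => exact ⟨0, Nat.zero_le _⟩
  | succ K ih =>
    obtain ⟨n, hn⟩ := ih
    by_contra hcon
    push Not at hcon
    have hK : ∀ m, n ≤ m → (st δ m).1 = K := by
      intro m hm
      have h1 := hcon m
      have h2 := kappa_mono δ hm
      simp only at h2
      omega
    obtain ⟨ρ, hρ, hρE⟩ := exists_small_E (ε := 2⁻¹ ^ (K + 1)) (by simp)
    have hlim2 : Tendsto (fun m => 4 * ((K : ℝ) + 1) * δ m) atTop (𝓝 0) := by
      simpa using hlim.const_mul (4 * ((K : ℝ) + 1))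
    obtain ⟨m, hm1, hm2⟩ := ((hlim2.eventually (gt_mem_nhds hρ)).and
      (eventually_ge_atTop (n + 1))).exists
    obtain ⟨m', rfl⟩ : ∃ m', m = m' + 1 := ⟨m - 1, by omega⟩
    have hs : Special δ (m' + 1) (st δ m').1 := by
      rw [hK m' (by omega)]
      unfold Special
      refine (measure_mono ?_).trans hρE
      intro w hw
      exact lt_trans hw hm1
    have h3 := hK (m' + 1) (by omega)
    rw [st_special δ hs] at h3
    have h4 := hK m' (by omega)
    simp only at h3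
    omega

lemma tendsto_kappa (hlim : Tendsto δ atTop (𝓝 0)) :
    Tendsto (fun n => (st δ n).1) atTop atTop :=
  tendsto_atTop_atTop_of_monotone (kappa_mono δ) (kappa_unbounded δ hlim)

lemma rho_ge (hδ : Antitone δ) (n : ℕ) : 4 * ((st δ n).1 : ℝ) * δ n ≤ (st δ n).2 := by
  induction n with
  | zero => simp [st]
  | succ n ih =>
    by_cases h : Special δ (n + 1) (st δ n).1
    · rw [st_special δ h]
      push_cast
      exact le_rfl
    · rw [st_not_special δ h]
      refine le_trans ?_ ih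
      exact mul_le_mul_of_nonneg_left (hδ (Nat.le_succ n)) (by positivity)

/-- a.e. boundary point eventually avoids the targets -/
lemma ae_avoid (hlim : Tendsto δ atTop (𝓝 0)) :
    ∀ᵐ w ∂arc, ∀ᶠ n in atTop, G δ n w ∉ E (st δ n).2 := by
  have h1 : ∀ᵐ w ∂arc, ∀ᶠ n in atTop, w ∉ N δ n := by
    apply ae_eventually_notMem
    refine ne_top_of_le_ne_top (tsum_bd δ) (ENNReal.tsum_le_tsum fun n => arc_N_le δ n)
  filter_upwards [h1] with w hw
  obtain ⟨n₀, hn₀⟩ := eventually_atTop.mp hw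
  -- first special step after n₀
  obtain ⟨m, hm⟩ := kappa_unbounded δ hlim ((st δ n₀).1 + 1)
  have hlt : n₀ < m := by
    by_contra hle
    have := kappa_mono δ (not_lt.mp hle)
    simp only at this
    omega
  -- there is a special step between
  have hex : ∃ s, n₀ ≤ s ∧ Special δ (s + 1) (st δ s).1 := by
    by_contra hcon
    push Not at hcon
    have hconst : ∀ j, (st δ (n₀ + j)).1 = (st δ n₀).1 := by
      intro j
      induction j with
      | zero => rfl
      | succ j ih =>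
        have h2 := hcon (n₀ + j) (by omega)
        rw [← add_assoc, st_not_special δ h2, ih]
    have := hconst (m - n₀)
    rw [Nat.add_sub_cancel' hlt.le] at this
    omega
  obtain ⟨s, hs, hsp⟩ := hex
  refine eventually_atTop.mpr ⟨s + 1, fun n hn => ?_⟩
  induction n, hn using Nat.le_induction with
  | base =>
    have h3 := hn₀ s hs
    unfold N at h3
    rw [if_pos hsp] at h3
    exact h3
  | succ n hn ih =>
    have h3 := hn₀ n (by omega)
    unfold N at h3
    by_cases h : Special δ (n + 1) (st δ n).1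
    · rw [if_pos h] at h3
      exact h3
    · rw [if_neg h] at h3
      intro h4
      exact h3 ⟨h4, ih⟩

/-- `a_n = 1 - δ_n` for `n ≥ 1`, `a_0 = 0`. -/
noncomputable def aa (n : ℕ) : ℝ := if n = 0 then 0 else 1 - δ n

lemma abs_aa (hpos : ∀ n, 0 < δ n) (hle : ∀ n, δ n ≤ 1) (n : ℕ) : |aa δ n| < 1 := by
  unfold aa
  split_ifs
  · simp
  · rw [abs_of_nonneg (by linarith [hle n])]
    linarith [hpos n]

/-- the inner functions `f_n` (`n ≥ 1`) -/
noncomputable def ff (n : ℕ) (w : ℂ) : ℂ := mob (aa δ n) (gB (rr δ (n - 1)) (mob (-(aa δ (n - 1))) w))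

lemma forward_eq (hpos : ∀ n, 0 < δ n) (hle : ∀ n, δ n ≤ 1) (n : ℕ) {w : ℂ} (hw : ‖w‖ ≤ 1) :
    forwardComp (ff δ) n w = mob (aa δ n) (G δ n w) := by
  induction n with
  | zero => simp [forwardComp, aa, mob_zero, G]
  | succ n ih =>
    show ff δ (n + 1) (forwardComp (ff δ) n w) = _
    rw [ih]
    unfold ff
    rw [Nat.add_sub_cancel, mob_neg_mob (abs_aa δ hpos hle n) (norm_G_le_one δ n hw)]
    rfl

lemma norm_ff_lt (hpos : ∀ n, 0 < δ n) (hle : ∀ n, δ n ≤ 1) (n : ℕ) {w : ℂ} (hw : ‖w‖ < 1) :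
    ‖ff δ n w‖ < 1 := by
  have h1 := norm_mob_lt (a := -(aa δ (n - 1))) (by rw [abs_neg]; exact abs_aa δ hpos hle _) hw
  exact norm_mob_lt (abs_aa δ hpos hle n) ((norm_gB_le (abs_rr δ _) h1.le).trans_lt h1)

lemma norm_ff_eq (hpos : ∀ n, 0 < δ n) (hle : ∀ n, δ n ≤ 1) (n : ℕ) {w : ℂ} (hw : ‖w‖ = 1) :
    ‖ff δ n w‖ = 1 := by
  have h1 := norm_mob_eq (a := -(aa δ (n - 1))) (by rw [abs_neg]; exact abs_aa δ hpos hle _) hw
  exact norm_mob_eq (abs_aa δ hpos hle n) (norm_gB_eq (abs_rr δ _) h1)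

lemma differentiableAt_ff (hpos : ∀ n, 0 < δ n) (hle : ∀ n, δ n ≤ 1) (n : ℕ) {w : ℂ}
    (hw : ‖w‖ ≤ 1) : DifferentiableAt ℂ (ff δ n) w := by
  have ha : |(-(aa δ (n - 1)))| < 1 := by rw [abs_neg]; exact abs_aa δ hpos hle _
  have h1 := norm_mob_le ha hw
  have h2 := (norm_gB_le (abs_rr δ (n - 1)) h1).trans h1
  have d1 := differentiableAt_mob ha hw
  have d2 := differentiableAt_gB (abs_rr δ (n - 1)) h1
  have d3 := differentiableAt_mob (abs_aa δ hpos hle n) h2
  exact (d3.comp (mob (-(aa δ (n - 1))) w) d2).comp w d1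

lemma hasRadialLimit_of_continuousAt {f : ℂ → ℂ} {θ : ℝ} (h : ContinuousAt f (exp (θ * I))) :
    HasRadialLimit f θ (f (exp (θ * I))) := by
  unfold HasRadialLimit
  have h1 : Tendsto (fun r : ℝ => (r : ℂ) * exp (θ * I)) (𝓝[<] 1) (𝓝 (exp (θ * I))) := by
    have h2 : Continuous fun r : ℝ => (r : ℂ) * exp (θ * I) := by fun_prop
    have h3 := h2.tendsto 1
    simp only [ofReal_one, one_mul] at h3
    exact h3.mono_left nhdsWithin_le_nhds
  exact h.tendsto.comp h1

lemma isInner_ff (hpos : ∀ n, 0 < δ n) (hle : ∀ n, δ n ≤ 1) (n : ℕ) : IsInner (ff δ n) where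
  differentiableOn := fun w hw =>
    (differentiableAt_ff δ hpos hle n (by simpa using (mem_ball_zero_iff.mp hw).le)).differentiableWithinAt
  mapsTo := fun w hw => by
    rw [mem_ball_zero_iff] at hw ⊢
    exact norm_ff_lt δ hpos hle n hw
  radial := by
    refine Eventually.of_forall fun θ => ⟨ff δ n (exp (θ * I)), ?_, ?_⟩
    · exact hasRadialLimit_of_continuousAt
        (differentiableAt_ff δ hpos hle n (by rw [norm_exp_ofReal_mul_I])).continuousAt
    · exact norm_ff_eq δ hpos hle n (norm_exp_ofReal_mul_I θ)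

lemma not_injOn_ff (hpos : ∀ n, 0 < δ n) (hle : ∀ n, δ n ≤ 1) (n : ℕ) :
    ¬ InjOn (ff δ n) (Metric.ball 0 1) := by
  intro h
  apply not_injOn_gB (abs_rr δ (n - 1))
  intro u hu v hv huv
  rw [mem_ball_zero_iff] at hu hv
  have ha := abs_aa δ hpos hle (n - 1)
  have hcancel : ∀ {x : ℂ}, ‖x‖ ≤ 1 → mob (-(aa δ (n - 1))) (mob (aa δ (n - 1)) x) = x :=
    fun hx => mob_neg_mob ha hx
  have e1 : ff δ n (mob (aa δ (n - 1)) u) = ff δ n (mob (aa δ (n - 1)) v) := by
    unfold ff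
    rw [hcancel hu.le, hcancel hv.le, huv]
  have e2 := h (mem_ball_zero_iff.mpr (norm_mob_lt ha hu))
    (mem_ball_zero_iff.mpr (norm_mob_lt ha hv)) e1
  rw [← hcancel hu.le, e2, hcancel hv.le]

/-- distance of boundary and interior orbit -/
lemma norm_mob_sub {a : ℝ} (ha0 : 0 ≤ a) (ha : a < 1) {w : ℂ} (hw : ‖w‖ = 1) :
    ‖mob a w - mob a 0‖ * ‖1 - w‖ ≤ 4 * (1 - a) := by
  have habs : |a| < 1 := by rw [abs_of_nonneg ha0]; exact ha
  have hne := one_sub_ne habs hw.le
  have hpos : 0 < ‖(1 : ℂ) - a * w‖ := norm_pos_iff.mpr hne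
  have e1 : mob a w - mob a 0 = w * ((1 - a ^ 2 : ℝ) : ℂ) / (1 - a * w) := by
    rw [mob_apply_zero]
    unfold mob
    rw [sub_neg_eq_add, div_add' _ _ _ hne]
    congr 1
    push_cast
    ring
  have h1a : 0 ≤ 1 - a ^ 2 := by nlinarith
  rw [e1, norm_div, norm_mul, hw, one_mul, Complex.norm_real, Real.norm_eq_abs,
    abs_of_nonneg h1a]
  have h2 : 1 - a ≤ ‖(1 : ℂ) - a * w‖ := by
    have := norm_sub_norm_le (1 : ℂ) (a * w)
    rw [norm_one, norm_mul, Complex.norm_real, Real.norm_eq_abs, abs_of_nonneg ha0, hw,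
      mul_one] at this
    exact this
  have h3 : ‖1 - w‖ ≤ 2 * ‖(1 : ℂ) - a * w‖ := by
    have e2 : 1 - w = (1 - a * w) - ((1 - a : ℝ) : ℂ) * w := by push_cast; ring
    calc ‖1 - w‖ = ‖(1 - a * w) - ((1 - a : ℝ) : ℂ) * w‖ := by rw [← e2]
      _ ≤ ‖(1 : ℂ) - a * w‖ + ‖((1 - a : ℝ) : ℂ) * w‖ := norm_sub_le _ _
      _ = ‖(1 : ℂ) - a * w‖ + (1 - a) := by
          rw [norm_mul, hw, mul_one, Complex.norm_real, Real.norm_eq_abs,
            abs_of_nonneg (by linarith)]
      _ ≤ 2 * ‖(1 : ℂ) - a * w‖ := by linarith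
  rw [div_mul_eq_mul_div, div_le_iff₀ hpos]
  nlinarith [norm_nonneg (1 - w), mul_nonneg h1a (norm_nonneg (1 - w))]

end Pool.Agent.InnerComp
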