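import Pool.Agent.InnerComp.Final

open Filter Topology Complex MeasureTheory Set
open scoped Real ENNReal

namespace Pool.Agent.InnerComp

lemma tendsto_artanh {α : Type*} {l : Filter α} {x : α → ℝ} (hx : Tendsto x l (𝓝 0)) :
    Tendsto (fun a => 2 * Real.artanh (x a)) l (𝓝 0) := by
  have h1 : ContinuousAt (fun y : ℝ => Real.log (Real.sqrt ((1 + y) / (1 - y)))) 0 := by
    refine ContinuousAt.log ?_ (by simp)
    refine ContinuousAt.sqrt ?_
    refine ContinuousAt.div (by fun_prop) (by fun_prop) (by simp)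
  have h2 : Tendsto (fun a => Real.artanh (x a)) l (𝓝 (Real.artanh 0)) := by
    have := h1.tendsto.comp hx
    exact this
  rw [Real.artanh_zero] at h2
  simpa using h2.const_mul 2

/-- transfer a.e. on the circle to a.e. angle -/
lemma ae_angle {P : ℂ → Prop} (h : ∀ᵐ w ∂arc, P w) : ∀ᵐ θ : ℝ, P (exp (θ * I)) := by
  have h1 : ∀ᵐ θ ∂(volume.restrict (Ioc 0 (2 * π))), P (circleMap 0 1 θ) := by
    unfold arc at h
    exact ae_of_ae_map measurable_circleMap01.aemeasurable h
  rw [ae_restrict_iff' measurableSet_Ioc, ae_iff] at h1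
  set B : Set ℝ := {θ | ¬ (θ ∈ Ioc 0 (2 * π) → P (circleMap 0 1 θ))} with hB
  rw [ae_iff]
  refine measure_mono_null (t := ⋃ k : ℤ, (fun θ : ℝ => θ + k * (2 * π)) ⁻¹' B) ?_ ?_
  · intro θ hθ
    obtain ⟨k, hk⟩ : ∃ k : ℤ, θ - k * (2 * π) ∈ Ioc 0 (2 * π) := by
      refine ⟨toIocDiv Real.two_pi_pos 0 θ, ?_⟩
      have := sub_toIocDiv_zsmul_mem_Ioc Real.two_pi_pos 0 θ
      simpa using this
    rw [mem_iUnion]
    refine ⟨-k, ?_⟩
    have e1 : θ + ((-k : ℤ) : ℝ) * (2 * π) = θ - k * (2 * π) := by push_cast; ring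
    show θ + ((-k : ℤ) : ℝ) * (2 * π) ∈ B
    rw [e1]
    show ¬ (_ → _)
    push Not
    refine ⟨hk, ?_⟩
    have e2 : circleMap 0 1 (θ - k * (2 * π)) = exp (θ * I) := by
      unfold circleMap
      rw [ofReal_one, one_mul, zero_add]
      have e3 : ((θ - k * (2 * π) : ℝ) : ℂ) * I = θ * I - k * (2 * π * I) := by push_cast; ring
      rw [e3, exp_sub, exp_int_mul_two_pi_mul_I, div_one]
    rw [e2]
    exact hθ
  · rw [measure_iUnion_null_iff]
    intro k
    rw [measure_preimage_add_right]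
    exact h1

theorem main (δ : ℕ → ℝ) (hδ : Antitone δ) (hpos : ∀ n, 0 < δ n) (hle : ∀ n, δ n ≤ 1)
    (hlim : Tendsto δ atTop (𝓝 0)) :
    ∃ f : ℕ → ℂ → ℂ,
      (∀ n, IsInner (f n) ∧ ¬ Set.InjOn (f n) (Metric.ball 0 1)) ∧
      IsContracting (forwardComp f) ∧
      (∀ z ∈ Metric.ball (0 : ℂ) 1, Tendsto (fun n => ‖forwardComp f n z‖) atTop (𝓝 1)) ∧
      (∀ n, 1 ≤ n → 1 - ‖forwardComp f n 0‖ = δ n) ∧
      (∀ᵐ θ : ℝ, θ ∈ denjoyWolffSet (forwardComp f)) := by
  have hG0 : ∀ z : ℂ, ‖z‖ < 1 → Tendsto (fun n => G δ n z) atTop (𝓝 0) := by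
    intro z hz
    rw [tendsto_zero_iff_norm_tendsto_zero]
    have h1 : Tendsto (fun n => ‖z‖ ^ ((st δ n).1 + 1)) atTop (𝓝 0) :=
      (tendsto_pow_atTop_nhds_zero_of_lt_one (norm_nonneg _) hz).comp
        ((tendsto_add_atTop_nat 1).comp (tendsto_kappa δ hlim))
    exact squeeze_zero (fun n => norm_nonneg _) (fun n => norm_G_le δ n hz.le) h1
  have haa : Tendsto (fun n => aa δ n) atTop (𝓝 1) := by
    have h1 : Tendsto (fun n => 1 - δ n) atTop (𝓝 1) := by simpa using hlim.const_sub 1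
    refine h1.congr' ?_
    filter_upwards [eventually_ge_atTop 1] with n hn
    unfold aa
    rw [if_neg (by omega)]
  refine ⟨ff δ, fun n => ⟨isInner_ff δ hpos hle n, not_injOn_ff δ hpos hle n⟩, ?_, ?_, ?_, ?_⟩
  · intro z hz w hw
    rw [mem_ball_zero_iff] at hz hw
    have h1 : Tendsto (fun n => ‖(G δ n z - G δ n w) / (1 - (starRingEnd ℂ) (G δ n w) * G δ n z)‖)
        atTop (𝓝 0) := by
      have hz0 := hG0 z hz
      have hw0 := hG0 w hw
      have hc : Tendsto (fun n => (starRingEnd ℂ) (G δ n w)) atTop (𝓝 0) := by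
        have := (Complex.continuous_conj.tendsto 0).comp hw0
        rw [map_zero] at this
        exact this
      have h2 : Tendsto (fun n => (G δ n z - G δ n w) /
          (1 - (starRingEnd ℂ) (G δ n w) * G δ n z)) atTop (𝓝 ((0 - 0) / (1 - 0 * 0))) :=
        (hz0.sub hw0).div ((hc.mul hz0).const_sub 1) (by simp)
      have := h2.norm
      simpa using this
    refine (tendsto_artanh h1).congr fun n => ?_
    unfold hypDist
    rw [forward_eq δ hpos hle n hz.le, forward_eq δ hpos hle n hw.le,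
      mob_invariance (abs_aa δ hpos hle n) (norm_G_le_one δ n hz.le) (norm_G_le_one δ n hw.le)]
  · intro z hz
    rw [mem_ball_zero_iff] at hz
    have h1 : Tendsto (fun n => mob (aa δ n) (G δ n z)) atTop (𝓝 ((0 - 1) / (1 - 1 * 0))) := by
      unfold mob
      have ha' : Tendsto (fun n => ((aa δ n : ℝ) : ℂ)) atTop (𝓝 1) := by
        have := (Complex.continuous_ofReal.tendsto 1).comp haa
        rw [ofReal_one] at this
        exact this
      exact ((hG0 z hz).sub ha').div ((ha'.mul (hG0 z hz)).const_sub 1) (by simp)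
    have h2 := h1.norm
    simp only [zero_sub, mul_zero, sub_zero, div_one, norm_neg, norm_one] at h2
    refine h2.congr fun n => ?_
    rw [forward_eq δ hpos hle n hz.le]
  · intro n hn
    rw [forward_eq δ hpos hle n (by simp), (goodMap_G δ n).zero, mob_apply_zero, norm_neg,
      Complex.norm_real, Real.norm_eq_abs]
    unfold aa
    rw [if_neg (by omega), abs_of_nonneg (by linarith [hle n])]
    ring
  · have h1 : ∀ᵐ w ∂arc, ‖w‖ = 1 ∧ ∀ᶠ n in atTop, G δ n w ∉ E (st δ n).2 :=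
      ae_norm_eq_one.and (ae_avoid δ hlim)
    filter_upwards [ae_angle h1] with θ hθ
    set w := exp (θ * I) with hw
    obtain ⟨hw1, hev⟩ := hθ
    refine ⟨fun n => forwardComp (ff δ) n w, fun n => ?_, ?_⟩
    · -- radial limits
      have hd : DifferentiableAt ℂ (fun z => mob (aa δ n) (G δ n z)) w :=
        (differentiableAt_mob (abs_aa δ hpos hle n) (norm_G_le_one δ n hw1.le)).comp w
          ((goodMap_G δ n).diff w hw1.le)
      have h2 := hasRadialLimit_of_continuousAt (θ := θ) hd.continuousAt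
      show HasRadialLimit (forwardComp (ff δ) n) θ (forwardComp (ff δ) n w)
      rw [forward_eq δ hpos hle n hw1.le]
      refine Tendsto.congr' ?_ h2
      have hnear : ∀ᶠ r : ℝ in 𝓝[<] 1, 0 < r ∧ r < 1 := by
        have h3 : Ioo (0:ℝ) 1 ∈ 𝓝[<] (1:ℝ) := Ioo_mem_nhdsLT one_pos
        exact h3
      filter_upwards [hnear] with r hr
      rw [forward_eq δ hpos hle n]
      rw [norm_mul, ← hw, hw1, mul_one, Complex.norm_real, Real.norm_eq_abs, abs_of_pos hr.1]
      exact hr.2.le
    · -- convergence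
      have hk : Tendsto (fun n => (1 : ℝ) / ((st δ n).1 : ℝ)) atTop (𝓝 0) :=
        tendsto_one_div_atTop_nhds_zero_nat.comp (tendsto_kappa δ hlim)
      refine squeeze_zero' (Eventually.of_forall fun n => norm_nonneg _) ?_ hk
      have hk1 : ∀ᶠ n in atTop, 1 ≤ (st δ n).1 :=
        (tendsto_kappa δ hlim).eventually (eventually_ge_atTop 1)
      filter_upwards [hev, hk1, eventually_ge_atTop 1] with n hn hkn hn1
      rw [forward_eq δ hpos hle n hw1.le, forward_eq δ hpos hle n (by simp),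
        (goodMap_G δ n).zero]
      have hGw : ‖G δ n w‖ = 1 := (goodMap_G δ n).circ w hw1
      have h3 : (st δ n).2 ≤ ‖1 - G δ n w‖ := not_lt.mp hn
      have h4 := rho_ge δ hδ n
      have ha0 : 0 ≤ aa δ n := by
        unfold aa; rw [if_neg (by omega)]; linarith [hle n]
      have ha1 : aa δ n < 1 := lt_of_le_of_lt (le_abs_self _) (abs_aa δ hpos hle n)
      have h5 := norm_mob_sub ha0 ha1 hGw
      have h6 : 1 - aa δ n = δ n := by unfold aa; rw [if_neg (by omega)]; ring
      rw [h6] at h5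
      have hkpos : (0 : ℝ) < ((st δ n).1 : ℝ) := by exact_mod_cast hkn
      rw [le_div_iff₀ hkpos]
      set X := ‖mob (aa δ n) (G δ n w) - mob (aa δ n) 0‖ with hX
      have hX0 : 0 ≤ X := norm_nonneg _
      have h7 : X * (4 * ((st δ n).1 : ℝ) * δ n) ≤ 4 * δ n :=
        (mul_le_mul_of_nonneg_left (h4.trans h3) hX0).trans h5
      have h8 : 0 < 4 * δ n := by have := hpos n; linarith
      have h9 : X * ((st δ n).1 : ℝ) * (4 * δ n) ≤ 1 * (4 * δ n) := by linarith
      exact le_of_mul_le_mul_right h9 h8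

end Pool.Agent.InnerComp
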