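import Pool.Agent.InnerComp.Arc

open Filter Topology Complex MeasureTheory Set
open scoped Real

namespace Pool.Agent.InnerComp

/-- the angle of a complex number as an element of `ℝ/2πℤ` -/
noncomputable def ang (w : ℂ) : AddCircle (2 * π) := ((Complex.arg w : ℝ) : AddCircle (2 * π))

lemma measurable_ang : Measurable ang := by
  unfold ang
  exact (AddCircle.continuous_mk' (2 * π)).measurable.comp Complex.measurable_arg

lemma exp_arg {w : ℂ} (hw : ‖w‖ = 1) : exp (arg w * I) = w := by
  have := Complex.norm_mul_exp_arg_mul_I w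
  rwa [hw, ofReal_one, one_mul] at this

lemma fourier_ang (n : ℤ) {w : ℂ} (hw : ‖w‖ = 1) : fourier n (ang w) = w ^ n := by
  unfold ang
  rw [fourier_coe_apply]
  have h1 : 2 * (π : ℂ) * I * n * (arg w : ℝ) / ((2 * π : ℝ) : ℂ) = n * (arg w * I) := by
    have : (π : ℂ) ≠ 0 := by exact_mod_cast Real.pi_ne_zero
    push_cast
    field_simp
  rw [h1, exp_int_mul, exp_arg hw]

lemma toCircle_ang {w : ℂ} (hw : ‖w‖ = 1) : ((AddCircle.toCircle (ang w) : Circle) : ℂ) = w := by
  have h := fourier_ang 1 hw
  rw [fourier_apply, one_smul, zpow_one] at h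
  exact h

instance factTwoPi : Fact (0 < 2 * π) := ⟨Real.two_pi_pos⟩

/-- the functional `p ↦ ∫ p(ang (g w)) dσ(w)` -/
noncomputable def Lam (g : ℂ → ℂ) (hg : Measurable g) : C(AddCircle (2 * π), ℂ) →L[ℂ] ℂ :=
  LinearMap.mkContinuous
    { toFun := fun p => ∫ w, p (ang (g w)) ∂arc
      map_add' := fun p q => by
        have hi : ∀ p : C(AddCircle (2 * π), ℂ), Integrable (fun w => p (ang (g w))) arc := by
          intro p
          refine Integrable.of_bound
            ((p.continuous.measurable.comp (measurable_ang.comp hg)).aestronglyMeasurable) ‖p‖ ?_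
          exact Eventually.of_forall fun w => p.norm_coe_le_norm _
        simp only [ContinuousMap.add_apply]
        exact integral_add (hi p) (hi q)
      map_smul' := fun c p => by
        simp only [ContinuousMap.smul_apply, RingHom.id_apply]
        exact integral_smul c _ }
    (arc.real univ) (fun p => by
      have := norm_integral_le_of_norm_le_const (μ := arc) (f := fun w => p (ang (g w))) (C := ‖p‖)
        (Eventually.of_forall fun w => p.norm_coe_le_norm _)
      exact this.trans (le_of_eq (mul_comm _ _)))

lemma Lam_apply (g : ℂ → ℂ) (hg : Measurable g) (p : C(AddCircle (2 * π), ℂ)) :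
    Lam g hg p = ∫ w, p (ang (g w)) ∂arc := rfl

lemma Lam_eq {g : ℂ → ℂ} (hg : GoodMap g) : Lam g hg.meas = Lam (fun w => w) measurable_id := by
  have hf : ∀ n : ℤ, Lam g hg.meas (fourier n) = Lam (fun w => w) measurable_id (fourier n) := by
    intro n
    rw [Lam_apply, Lam_apply]
    have h1 : ∫ w, (fourier n (ang (g w)) : ℂ) ∂arc = ∫ w, g w ^ n ∂arc := by
      refine integral_congr_ae ?_
      filter_upwards [ae_norm_eq_one] with w hw
      exact fourier_ang n (hg.circ w hw)
    have h2 : ∫ w, (fourier n (ang w) : ℂ) ∂arc = ∫ w, w ^ n ∂arc := by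
      refine integral_congr_ae ?_
      filter_upwards [ae_norm_eq_one] with w hw
      exact fourier_ang n hw
    rw [h1, h2]
    by_cases hn : n = 0
    · simp [hn]
    · rw [hg.integral_zpow hn, goodMap_id.integral_zpow hn]
  have hcl : IsClosed {p : C(AddCircle (2 * π), ℂ) |
      Lam g hg.meas p = Lam (fun w => w) measurable_id p} :=
    isClosed_eq (Lam g hg.meas).continuous (Lam (fun w => w) measurable_id).continuous
  have hspan : (Submodule.span ℂ (range (@fourier (2 * π))) : Set C(AddCircle (2 * π), ℂ)) ⊆
      {p | Lam g hg.meas p = Lam (fun w => w) measurable_id p} := by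
    intro p hp
    induction hp using Submodule.span_induction with
    | mem x hx => obtain ⟨n, rfl⟩ := hx; exact hf n
    | zero => simp
    | add x y _ _ hx hy =>
      simp only [mem_ofPred_eq] at hx hy ⊢
      rw [map_add, map_add, hx, hy]
    | smul a x _ hx =>
      simp only [mem_ofPred_eq] at hx ⊢
      rw [map_smul, map_smul, hx]
  ext p
  have htop := span_fourier_closure_eq_top (T := 2 * π)
  have hp : p ∈ (Submodule.span ℂ (range (@fourier (2 * π)))).topologicalClosure := by
    rw [htop]; trivial
  have := hcl.closure_subset_iff.mpr hspan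
  exact this hp

/-- A map holomorphic near the closed disc, unimodular on the circle and fixing `0` preserves
arc length. -/
theorem GoodMap.map_arc {g : ℂ → ℂ} (hg : GoodMap g) : arc.map g = arc := by
  have : IsFiniteMeasure (arc.map g) := Measure.isFiniteMeasure_map _ _
  apply ext_of_forall_integral_eq_of_IsFiniteMeasure
  intro f
  rw [integral_map hg.meas.aemeasurable f.continuous.aestronglyMeasurable]
  set p : C(AddCircle (2 * π), ℂ) :=
    ⟨fun x => ((f ((AddCircle.toCircle x : Circle) : ℂ) : ℝ) : ℂ), by
      have h1 : Continuous (fun x : AddCircle (2 * π) => ((AddCircle.toCircle x : Circle) : ℂ)) :=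
        Continuous.comp (by fun_prop) AddCircle.continuous_toCircle
      exact Complex.continuous_ofReal.comp (f.continuous.comp h1)⟩ with hp
  have hval : ∀ w : ℂ, ‖w‖ = 1 → p (ang w) = ((f w : ℝ) : ℂ) := by
    intro w hw
    show ((f ((AddCircle.toCircle (ang w) : Circle) : ℂ) : ℝ) : ℂ) = _
    rw [toCircle_ang hw]
  have h := congrArg (fun L : C(AddCircle (2 * π), ℂ) →L[ℂ] ℂ => L p) (Lam_eq hg)
  simp only [Lam_apply] at h
  have h1 : ∫ w, p (ang (g w)) ∂arc = ∫ w, ((f (g w) : ℝ) : ℂ) ∂arc := by
    refine integral_congr_ae ?_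
    filter_upwards [ae_norm_eq_one] with w hw
    exact hval _ (hg.circ w hw)
  have h2 : ∫ w, p (ang w) ∂arc = ∫ w, ((f w : ℝ) : ℂ) ∂arc := by
    refine integral_congr_ae ?_
    filter_upwards [ae_norm_eq_one] with w hw
    exact hval _ hw
  rw [h1, h2, integral_complex_ofReal, integral_complex_ofReal] at h
  exact_mod_cast h

end Pool.Agent.InnerComp
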